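import Mathlib

/-!
# Posets of finite length with a special element below which principal down-sets are chains

`Pool.Agent.Helper80.FP.fixed_point`: if `P` has no infinite ascending or descending chains (for
example if `P` has finite length, `wf_gt`, `wf_lt`), `s` is a special element and for every `d < s`
the elements below `d` form a chain, then every monotone self-map of `P` has a fixed point. The
proof is elementary.
-/

set_option autoImplicit false

universe u

namespace Pool.Agent.Helper80.FP

variable {P : Type u} [PartialOrder P]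

/-- bounded chains: no infinite ascending sequence -/
theorem wf_gt (hn : ∃ n : ℕ, ∀ c : Finset P, IsChain (· ≤ ·) (c : Set P) → c.card ≤ n) :
    WellFounded ((· > ·) : P → P → Prop) := by
  classical
  obtain ⟨n, hn⟩ := hn
  rw [RelEmbedding.wellFounded_iff_isEmpty]
  refine ⟨fun g => ?_⟩
  have hmono : StrictMono g := by
    intro a b hab
    exact g.map_rel_iff.2 hab
  have h := hn ((Finset.range (n + 1)).image g) (by
    intro a ha b hb _
    simp only [Finset.coe_image, Set.mem_image] at ha hb
    obtain ⟨i, -, rfl⟩ := ha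
    obtain ⟨j, -, rfl⟩ := hb
    rcases le_total i j with h | h
    · exact Or.inl (hmono.monotone h)
    · exact Or.inr (hmono.monotone h))
  rw [Finset.card_image_of_injective _ hmono.injective, Finset.card_range] at h
  omega

/-- bounded chains: no infinite descending sequence -/
theorem wf_lt (hn : ∃ n : ℕ, ∀ c : Finset P, IsChain (· ≤ ·) (c : Set P) → c.card ≤ n) :
    WellFounded ((· < ·) : P → P → Prop) := by
  classical
  obtain ⟨n, hn⟩ := hn
  rw [RelEmbedding.wellFounded_iff_isEmpty]
  refine ⟨fun g => ?_⟩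
  have hanti : StrictAnti g := by
    intro a b hab
    exact g.map_rel_iff.2 hab
  have h := hn ((Finset.range (n + 1)).image g) (by
    intro a ha b hb _
    simp only [Finset.coe_image, Set.mem_image] at ha hb
    obtain ⟨i, -, rfl⟩ := ha
    obtain ⟨j, -, rfl⟩ := hb
    rcases le_total i j with h | h
    · exact Or.inr (hanti.antitone h)
    · exact Or.inl (hanti.antitone h))
  rw [Finset.card_image_of_injective _ hanti.injective, Finset.card_range] at h
  omega

/-- the element `z` has no common lower bound with `s` -/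
def NoLow (s z : P) : Prop := ∀ t, t ≤ s → t ≤ z → False

/-- every common upper bound of `s` and `f c` is above `c` -/
def Good (s : P) (f : P → P) (c : P) : Prop := ∀ j, s ≤ j → f c ≤ j → c ≤ j

/-- the run `c, s ∨ f c, ...` exits at `u` -/
inductive Exit (s : P) (f : P → P) : P → P → Prop
  | base (c : P) : Good s f c → ¬ NoLow s (f c) → Exit s f c c
  | step (c j u : P) : Good s f c → NoLow s (f c) → IsLUB ({s, f c} : Set P) j →
      Exit s f j u → Exit s f c u

/-- values above `y` -/
def Val (s : P) (f : P → P) (y t : P) : Prop :=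
  t < s ∧ ∃ w, y ≤ w ∧ IsGLB ({s, f w} : Set P) t

section lemmas

variable {s : P} {f : P → P}

theorem lub_left {a b j : P} (h : IsLUB ({a, b} : Set P) j) : a ≤ j := h.1 (by simp)

theorem lub_right {a b j : P} (h : IsLUB ({a, b} : Set P) j) : b ≤ j := h.1 (by simp)

theorem lub_le {a b j x : P} (h : IsLUB ({a, b} : Set P) j) (ha : a ≤ x) (hb : b ≤ x) : j ≤ x :=
  h.2 (by
    intro t ht
    simp only [Set.mem_insert_iff, Set.mem_singleton_iff] at ht
    rcases ht with rfl | rfl
    · exact ha
    · exact hb)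

theorem glb_left {a b j : P} (h : IsGLB ({a, b} : Set P) j) : j ≤ a := h.1 (by simp)

theorem glb_right {a b j : P} (h : IsGLB ({a, b} : Set P) j) : j ≤ b := h.1 (by simp)

theorem le_glb {a b j x : P} (h : IsGLB ({a, b} : Set P) j) (ha : x ≤ a) (hb : x ≤ b) : x ≤ j :=
  h.2 (by
    intro t ht
    simp only [Set.mem_insert_iff, Set.mem_singleton_iff] at ht
    rcases ht with rfl | rfl
    · exact ha
    · exact hb)

theorem Exit.good {c u : P} (h : Exit s f c u) : Good s f c := by
  cases h with
  | base _ hg _ => exact hg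
  | step _ _ _ hg _ _ _ => exact hg

theorem Exit.le {c u : P} (h : Exit s f c u) : c ≤ u := by
  induction h with
  | base c _ _ => exact le_rfl
  | step c j u hg _ hj _ ih => exact (hg j (lub_left hj) (lub_right hj)).trans ih

theorem Exit.notN {c u : P} (h : Exit s f c u) : ¬ NoLow s (f u) := by
  induction h with
  | base c _ h => exact h
  | step c j u _ _ _ _ ih => exact ih

theorem Exit.goodEnd {c u : P} (h : Exit s f c u) : Good s f u := by
  induction h with
  | base c h _ => exact h
  | step c j u _ _ _ _ ih => exact ih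

/-- if the run does not stop at once, `s` and the first join are below the exit -/
theorem Exit.ofN {c u : P} (h : Exit s f c u) (hN : NoLow s (f c)) :
    ∃ j, IsLUB ({s, f c} : Set P) j ∧ Exit s f j u ∧ j ≤ u ∧ s ≤ u := by
  cases h with
  | base _ _ h => exact absurd hN h
  | step _ j _ hg _ hj he => exact ⟨j, hj, he, he.le, (lub_left hj).trans he.le⟩

theorem NoLow.mono {a b : P} (hab : a ≤ b) (h : NoLow s b) : NoLow s a :=
  fun t h1 h2 => h t h1 (h2.trans hab)

/-- interleaved runs have comparable exits -/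
theorem Exit.comparable (hf : Monotone f) {y uy : P} (hy : Exit s f y uy) :
    ∀ {x ux : P}, Exit s f x ux → x ≤ y →
      (∀ j, NoLow s (f x) → IsLUB ({s, f x} : Set P) j → y ≤ j) → ux ≤ uy ∨ uy ≤ ux := by
  induction hy with
  | base y hg hN =>
    intro x ux hx hxy hj
    cases hx with
    | base _ _ _ => exact Or.inl hxy
    | step _ j _ hgx hNx hjx he =>
      have hyj : y ≤ j := hj j hNx hjx
      have hNj : ¬ NoLow s (f j) := fun h => hN (h.mono (hf hyj))
      cases he with
      | base _ _ _ => exact Or.inr hyj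
      | step _ _ _ _ h _ _ => exact absurd h hNj
  | step y jy uy hg hN hjy he ih =>
    intro x ux hx hxy hj
    have hNx : NoLow s (f x) := hN.mono (hf hxy)
    obtain ⟨jx, hjx, hex, -, -⟩ := hx.ofN hNx
    refine ih hex (lub_le hjx (lub_left hjy) ((hf hxy).trans (lub_right hjy))) ?_
    intro j _ hjj
    exact lub_le hjy (lub_left hjj) ((hf (hj jx hNx hjx)).trans (lub_right hjj))

end lemmas

section main

variable (s : P) (f : P → P)

/-- the state of the final iteration -/
def State (y : P) : Prop :=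
  NoLow s (f y) ∧ ∃ u d m, Exit s f y u ∧ IsGLB ({s, f u} : Set P) d ∧ Val s f y m ∧ m ≤ d ∧
    (∀ t, Val s f y t → t ≤ d → m ≤ t) ∧ ∀ j, m ≤ j → f y ≤ j → y ≤ j

end main

theorem fixed_point (hlt : WellFounded (fun x y : P => x < y))
    (hgt : WellFounded (fun x y : P => y < x)) (s : P)
    (h1 : ∀ x : P, (∃ z : P, IsLUB ({s, x} : Set P) z) ∨ (∃ z : P, IsGLB ({s, x} : Set P) z))
    (h2 : ∀ x y : P, x < y → (¬ ∃ z : P, IsGLB ({s, x} : Set P) z) →
      ∀ m : P, IsGLB ({s, y} : Set P) m → ∃ z : P, IsLUB ({m, x} : Set P) z)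
    (hC : ∀ d : P, d < s → IsChain (· ≤ ·) {z : P | z ≤ d})
    (f : P → P) (hf : Monotone f) : ∃ x : P, f x = x := by
  classical
  by_contra hfix
  have hne : ∀ x, f x ≠ x := fun x h => hfix ⟨x, h⟩
  have noUp : ∀ x, ¬ x ≤ f x := by
    intro x
    induction x using hgt.induction with
    | _ x ih =>
      intro hx
      exact ih (f x) (lt_of_le_of_ne hx (Ne.symm (hne x))) (hf hx)
  have noDown : ∀ x, ¬ f x ≤ x := by
    intro x
    induction x using hlt.induction with
    | _ x ih =>
      intro hx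
      exact ih (f x) (lt_of_le_of_ne hx (hne x)) (hf hx)
  -- comparability below `d < s`
  have hcmp : ∀ d a b : P, d < s → a ≤ d → b ≤ d → a ≤ b ∨ b ≤ a := by
    intro d a b hd ha hb
    by_cases hab : a = b
    · exact Or.inl hab.le
    · exact hC d hd ha hb hab
  -- no meet, hence a join, for elements without common lower bound
  have noGLB : ∀ z, NoLow s z → ¬ ∃ g : P, IsGLB ({s, z} : Set P) g := by
    rintro z hz ⟨g, hg⟩
    exact hz g (glb_left hg) (glb_right hg)
  have gSle : ∀ c, Good s f c → ¬ s ≤ f c := fun c hc h => noUp c (hc (f c) h le_rfl)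
  have gNext : ∀ c j, Good s f c → IsLUB ({s, f c} : Set P) j → c < j ∧ Good s f j := by
    intro c j hc hj
    have hcj : c ≤ j := hc j (lub_left hj) (lub_right hj)
    refine ⟨lt_of_le_of_ne hcj ?_, ?_⟩
    · rintro rfl
      exact noDown c (lub_right hj)
    · intro j' h3 h4
      exact lub_le hj h3 ((hf hcj).trans h4)
  -- bound for the common lower bounds
  have E0 : ∀ c, Good s f c → ∃ m, m < s ∧ ∀ t, t ≤ s → t ≤ f c → t ≤ m := by
    intro c
    induction c using hgt.induction with
    | _ c ih =>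
      intro hc
      by_cases hg : ∃ z : P, IsGLB ({s, f c} : Set P) z
      · obtain ⟨m, hm⟩ := hg
        refine ⟨m, lt_of_le_of_ne (glb_left hm) ?_, fun t ht1 ht2 => le_glb hm ht1 ht2⟩
        rintro rfl
        exact gSle c hc (glb_right hm)
      · obtain ⟨j, hj⟩ := (h1 (f c)).resolve_right hg
        obtain ⟨hcj, hgj⟩ := gNext c j hc hj
        obtain ⟨m, hm, hm2⟩ := ih j hcj hgj
        exact ⟨m, hm, fun t ht1 ht2 => hm2 t ht1 (ht2.trans (hf hcj.le))⟩
  have E1 : ∀ c, Good s f c → ¬ NoLow s (f c) → ∃ m, IsGLB ({s, f c} : Set P) m ∧ m < s := by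
    intro c hc hN
    obtain ⟨m0, hm0, hm0'⟩ := E0 c hc
    have hne' : ({t | t ≤ s ∧ t ≤ f c} : Set P).Nonempty := by
      by_contra hemp
      refine hN fun t ht1 ht2 => hemp ⟨t, ht1, ht2⟩
    have hmem := hgt.min_mem _ hne'
    set t0 := hgt.min _ hne' with ht0
    refine ⟨t0, ⟨?_, ?_⟩, (hm0' t0 hmem.1 hmem.2).trans_lt hm0⟩
    · intro a ha
      simp only [Set.mem_insert_iff, Set.mem_singleton_iff] at ha
      rcases ha with rfl | rfl
      · exact hmem.1
      · exact hmem.2
    · intro t ht
      have ht1 : t ≤ s := ht (by simp)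
      have ht2 : t ≤ f c := ht (by simp)
      rcases hcmp m0 t t0 hm0 (hm0' t ht1 ht2) (hm0' t0 hmem.1 hmem.2) with h | h
      · exact h
      · have := hgt.not_lt_min {t | t ≤ s ∧ t ≤ f c} (x := t) ⟨ht1, ht2⟩
        rcases h.lt_or_eq with h | h
        · exact absurd h this
        · exact h.ge
  -- exits exist
  have hExit : ∀ c, Good s f c → ∃ u, Exit s f c u := by
    intro c
    induction c using hgt.induction with
    | _ c ih =>
      intro hc
      by_cases hN : NoLow s (f c)
      · obtain ⟨j, hj⟩ := (h1 (f c)).resolve_right (noGLB _ hN)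
        obtain ⟨hcj, hgj⟩ := gNext c j hc hj
        obtain ⟨u, hu⟩ := ih j hcj hgj
        exact ⟨u, Exit.step c j u hc hN hj hu⟩
      · exact ⟨c, Exit.base c hc hN⟩
  have hExitD : ∀ c, Good s f c → ∃ u d, Exit s f c u ∧ IsGLB ({s, f u} : Set P) d ∧ d < s := by
    intro c hc
    obtain ⟨u, hu⟩ := hExit c hc
    obtain ⟨d, hd, hds⟩ := E1 u hu.goodEnd hu.notN
    exact ⟨u, d, hu, hd, hds⟩
  -- least elements of non-empty sets below some `d < s`
  have hLeast : ∀ (A : Set P) (d : P), d < s → d ∈ A →
      ∃ m, m ∈ A ∧ m ≤ d ∧ ∀ t, t ∈ A → t ≤ d → m ≤ t := by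
    intro A d hd hdA
    have hne' : ({t | t ∈ A ∧ t ≤ d} : Set P).Nonempty := ⟨d, hdA, le_rfl⟩
    have hmem := hlt.min_mem _ hne'
    refine ⟨hlt.min _ hne', hmem.1, hmem.2, fun t ht htd => ?_⟩
    rcases hcmp d _ t hd hmem.2 htd with h | h
    · exact h
    · have := hlt.not_lt_min {t | t ∈ A ∧ t ≤ d} (x := t) ⟨ht, htd⟩
      rcases h.lt_or_eq with h | h
      · exact absurd h this
      · exact h.ge
  -- monotonicity of the values in the exits
  have dmono : ∀ u u' d d' : P, u ≤ u' → IsGLB ({s, f u} : Set P) d →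
      IsGLB ({s, f u'} : Set P) d' → d ≤ d' := by
    intro u u' d d' huu hd hd'
    exact le_glb hd' (glb_left hd) ((glb_right hd).trans (hf huu))
  -- the step
  have hStep : ∀ y, State s f y → ∃ y', y < y' ∧ State s f y' := by
    rintro y ⟨hNy, u, d, m, hu, hd, hVm, hmd, hmin, hup⟩
    obtain ⟨hms, w, hyw, hw⟩ := hVm
    have hVm : Val s f y m := ⟨hms, w, hyw, hw⟩
    have hfyw : f y < f w := by
      refine lt_of_le_of_ne (hf hyw) fun h => ?_
      exact hNy m (glb_left hw) (h ▸ glb_right hw)
    obtain ⟨y', hy'⟩ := h2 (f y) (f w) hfyw (noGLB _ hNy) m hw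
    have hyy' : y ≤ y' := hup y' (lub_left hy') (lub_right hy')
    have hlt' : y < y' := by
      refine lt_of_le_of_ne hyy' ?_
      rintro rfl
      exact noDown y (lub_right hy')
    obtain ⟨j, hj, hej, hju, hsu⟩ := hu.ofN hNy
    have hy'j : ∀ j', IsLUB ({s, f y} : Set P) j' → y' ≤ j' := fun j' hj' =>
      lub_le hy' (hms.le.trans (lub_left hj')) (lub_right hj')
    have hy'u : y' ≤ u := (hy'j j hj).trans hju
    have hup' : ∀ j', m ≤ j' → f y' ≤ j' → y' ≤ j' := fun j' h3 h4 =>
      lub_le hy' h3 ((hf hyy').trans h4)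
    have hgood : Good s f y' := fun j' h3 h4 => hup' j' (hms.le.trans h3) h4
    have hds : d < s := by
      refine lt_of_le_of_ne (glb_left hd) ?_
      rintro rfl
      exact gSle u hu.goodEnd (glb_right hd)
    have hNy' : NoLow s (f y') := by
      by_contra hN
      obtain ⟨e, he, hes⟩ := E1 y' hgood hN
      have hed : e ≤ d := dmono y' u e d hy'u he hd
      have hme : m ≤ e := hmin e ⟨hes, y', hyy', he⟩ hed
      exact noUp y' (hup' (f y') (hme.trans (glb_right he)) le_rfl)
    obtain ⟨u', d', hu', hd', hds'⟩ := hExitD y' hgood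
    obtain ⟨m', hm'V, hm'd, hm'min⟩ := hLeast {t | Val s f y' t} d' hds' ⟨hds', u', hu'.le, hd'⟩
    have hm'V' : Val s f y m' := by
      obtain ⟨h3, w', h4, h5⟩ := hm'V
      exact ⟨h3, w', hyy'.trans h4, h5⟩
    have hmm' : m ≤ m' := by
      rcases hu'.comparable hf hu hyy' (fun j' _ hj' => hy'j j' hj') with h | h
      · -- `u ≤ u'`, `d ≤ d'`
        have hdd : d ≤ d' := dmono u u' d d' h hd hd'
        rcases hcmp d' m m' hds' (hmd.trans hdd) hm'd with h3 | h3
        · exact h3
        · exact hmin m' hm'V' (h3.trans hmd)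
      · have hdd : d' ≤ d := dmono u' u d' d h hd' hd
        exact hmin m' hm'V' (hm'd.trans hdd)
    exact ⟨y', hlt', hNy', u', d', m', hu', hd', hm'V, hm'd, fun t ht => hm'min t ht,
      fun j' h3 h4 => hup' j' (hmm'.trans h3) h4⟩
  -- no state
  have hNo : ∀ y, ¬ State s f y := by
    intro y
    induction y using hgt.induction with
    | _ y ih =>
      intro hy
      obtain ⟨y', h3, h4⟩ := hStep y hy
      exact ih y' h3 h4
  -- the start
  have hgs : Good s f s := fun j hj _ => hj
  obtain ⟨us, ds, hus, hds, hdss⟩ := hExitD s hgs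
  obtain ⟨v, ⟨hvs, w, hvw, hw⟩, hvd, hvmin⟩ :=
    hLeast {t | t < s ∧ ∃ w, t ≤ w ∧ IsGLB ({s, f w} : Set P) t} ds hdss
      ⟨hdss, us, hdss.le.trans hus.le, hds⟩
  have hgv : Good s f v := fun j hj _ => hvs.le.trans hj
  have hNv : NoLow s (f v) := by
    by_contra hN
    obtain ⟨e, he, hes⟩ := E1 v hgv hN
    have hev : e ≤ v := dmono v w e v hvw he hw
    have hve : v ≤ e := hvmin e ⟨hes, v, hev, he⟩ (hev.trans hvd)
    exact noUp v (hve.trans (glb_right he))
  obtain ⟨uv, dv, huv, hdv, hdvs⟩ := hExitD v hgv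
  have hsuv : s ≤ uv := (huv.ofN hNv).choose_spec.2.2.2
  have hvdv : v ≤ dv := by
    rcases hus.comparable hf huv hvs.le (fun j _ hj => lub_left hj) with h | h
    · exact hvmin dv ⟨hdvs, uv, hdvs.le.trans hsuv, hdv⟩ (dmono uv us dv ds h hdv hds)
    · exact hvd.trans (dmono us uv ds dv h hds hdv)
  obtain ⟨m, hmV, hmd, hmmin⟩ := hLeast {t | Val s f v t} dv hdvs ⟨hdvs, uv, huv.le, hdv⟩
  have hvm : v ≤ m := by
    rcases hcmp dv v m hdvs hvdv hmd with h | h
    · exact h
    · obtain ⟨h3, w', h4, h5⟩ := hmV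
      exact hvmin m ⟨h3, w', h.trans h4, h5⟩ (h.trans hvd)
  exact hNo v ⟨hNv, uv, dv, m, huv, hdv, hmV, hmd, fun t ht => hmmin t ht,
    fun j h3 _ => hvm.trans h3⟩

end Pool.Agent.Helper80.FP
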